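import Pool.Agent.Work.MP_9ecf5f_nt.AE.Stmts
import Pool.Agent.Work.MP_a8fbd7_nt.OX.CW.BTcore

/-!
MP_9ecf5f_nt, block AE, item B: a Brun-Titchmarsh bound for the number of primes in a window.
Author: helper5.
-/

set_option autoImplicit false

noncomputable section

namespace Pool.Agent.Work.MP_9ecf5f_nt.AE

namespace XB

/-- `e^u ≤ 1 + 2u` for `0 ≤ u ≤ 1` -/
theorem exp_le {u : ℝ} (h0 : 0 ≤ u) (h1 : u ≤ 1) : Real.exp u ≤ 1 + 2 * u := by
  have h := Real.abs_exp_sub_one_sub_id_le (x := u) (by rw [abs_of_nonneg h0]; exact h1)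
  have h2 := (abs_le.1 h).2
  nlinarith

end XB

open XB

theorem prf_B : StB := by
  refine ⟨800, by norm_num, fun μ hμ hμ1 => ⟨256 / μ ^ 2 + 4, ?_, fun T t hT ht1 ht2 => ?_⟩⟩
  · have : 0 < 256 / μ ^ 2 := by positivity
    linarith
  have hq : 0 < 256 / μ ^ 2 := by positivity
  have hT4 : 4 ≤ T := by linarith
  have hT0 : 0 < T := by linarith
  have hT256 : 256 ≤ μ ^ 2 * T := by
    have h1 : 256 / μ ^ 2 ≤ T := by linarith
    rw [div_le_iff₀ (by positivity)] at h1
    linarith
  have hμT : 256 ≤ μ * T := by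
    have h1 : μ ^ 2 * T ≤ μ * T := by
      have : μ ^ 2 ≤ μ := by nlinarith
      exact mul_le_mul_of_nonneg_right this hT0.le
    linarith
  have ht0 : 0 < t := by
    have : 0 < T ^ 2 / 2 := by positivity
    linarith
  -- the length
  set L : ℝ := 2 * μ * t / T with hL
  have hLT : μ * T ≤ L := by
    rw [hL, le_div_iff₀ hT0]
    have : μ * (T ^ 2 / 2) ≤ μ * t := mul_le_mul_of_nonneg_left ht1 hμ.le
    nlinarith
  have hL1 : 1 ≤ L := by linarith
  set n : ℕ := ⌈L⌉₊ with hn
  have hnL : L ≤ n := Nat.le_ceil L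
  have hnL' : (n : ℝ) ≤ 2 * L := by
    have := Nat.ceil_lt_add_one (by linarith : (0 : ℝ) ≤ L)
    linarith
  have hn256 : 256 ≤ n := by
    have : (256 : ℝ) ≤ n := by linarith
    exact_mod_cast this
  have hnt : (n : ℝ) ≤ t := by
    have h1 : 2 * L ≤ t := by
      rw [hL, ← mul_div_assoc, div_le_iff₀ hT0]
      have : μ * t ≤ 1 * t := mul_le_mul_of_nonneg_right hμ1 ht0.le
      nlinarith
    linarith
  have hu0 : 0 ≤ μ / T := by positivity
  have hu1 : μ / T ≤ 1 := by
    rw [div_le_iff₀ hT0]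
    linarith
  have hwin : t * Real.exp (μ / T) ≤ t + L := by
    have h1 := exp_le hu0 hu1
    have h2 := mul_le_mul_of_nonneg_left h1 ht0.le
    have h3 : t * (1 + 2 * (μ / T)) = t + L := by
      rw [hL]; ring
    linarith
  have hcore := Pool.Agent.Work.MP_a8fbd7_nt.OX.CW.BTaux.core hn256
    ((Finset.Ioc ⌊t⌋₊ ⌊t * Real.exp (μ / T)⌋₊).filter Nat.Prime) t ht0.le (fun p hp => by
      rw [Finset.mem_filter, Finset.mem_Ioc] at hp
      obtain ⟨⟨a1, a2⟩, a3⟩ := hp
      have b1 : t < p := Nat.lt_of_floor_lt a1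
      have b2 : (p : ℝ) ≤ t * Real.exp (μ / T) := (Nat.le_floor_iff' (by
        have := a3.pos
        omega)).1 a2
      refine ⟨b1, by linarith, a3, ?_⟩
      have : (n : ℝ) < p := by linarith
      exact_mod_cast this.le)
  have hcnt : cnt μ T t ≤ 48 * ((n : ℝ) / (2 * Real.log n)) := hcore
  -- logarithms
  have hn0 : (0 : ℝ) < n := by linarith
  have hlogT : 0 < Real.log T := Real.log_pos (by linarith)
  have hl1 : Real.log T / 2 ≤ Real.log n := by
    have h1 : T ≤ (μ * T) ^ 2 := by nlinarith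
    have h2 : Real.log T ≤ 2 * Real.log (μ * T) := by
      calc Real.log T ≤ Real.log ((μ * T) ^ 2) := Real.log_le_log hT0 h1
        _ = 2 * Real.log (μ * T) := by rw [Real.log_pow]; norm_num
    have h3 : Real.log (μ * T) ≤ Real.log n := Real.log_le_log (by positivity) (by linarith)
    linarith
  have hl2 : Real.log t ≤ 4 * Real.log T := by
    have h1 : t ≤ T ^ 4 := by
      have : 4 * T ^ 2 ≤ T ^ 4 := by nlinarith [sq_nonneg (T ^ 2), sq_nonneg T]
      linarith
    calc Real.log t ≤ Real.log (T ^ 4) := Real.log_le_log ht0 h1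
      _ = 4 * Real.log T := by rw [Real.log_pow]; norm_num
  have hlt : 0 < Real.log t := by
    refine Real.log_pos ?_
    nlinarith
  have hln : 0 < Real.log n := by linarith
  have h8 : Real.log t ≤ 8 * Real.log n := by linarith
  have h9 : (n : ℝ) / (2 * Real.log n) ≤ 8 * μ * t / T * (2 / Real.log t) := by
    have h2 : 1 / (2 * Real.log n) ≤ 4 / Real.log t := by
      rw [div_le_div_iff₀ (by positivity) hlt]
      linarith
    have h3 : (n : ℝ) ≤ 4 * μ * t / T := by
      have : 2 * L = 4 * μ * t / T := by rw [hL]; ring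
      linarith
    have h4 : 0 ≤ 4 * μ * t / T := by positivity
    calc (n : ℝ) / (2 * Real.log n) = n * (1 / (2 * Real.log n)) := by ring
      _ ≤ (4 * μ * t / T) * (4 / Real.log t) := mul_le_mul h3 h2 (by positivity) h4
      _ = 8 * μ * t / T * (2 / Real.log t) := by ring
  have h10 : 0 ≤ μ * t / (T * Real.log t) := by positivity
  calc cnt μ T t ≤ 48 * ((n : ℝ) / (2 * Real.log n)) := hcnt
    _ ≤ 48 * (8 * μ * t / T * (2 / Real.log t)) := by linarith
    _ = 768 * (μ * t / (T * Real.log t)) := by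
        field_simp
        ring
    _ ≤ 800 * (μ * t / (T * Real.log t)) := by linarith

end Pool.Agent.Work.MP_9ecf5f_nt.AE
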