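import Pool.Agent.Work.MP_9ecf5f_nt.AE.Stmts

/-!
# MP_9ecf5f_nt, block AE, item F: all scales
-/

set_option autoImplicit false

open MeasureTheory Set

noncomputable section

namespace Pool.Agent.Work.MP_9ecf5f_nt.AE

open Pool.Agent.Work.MP_a8fbd7_nt.OX (PackLe LSep r1)

namespace XF

/-- the number of primes in `(a, b]` -/
theorem card_primes (a b : ℕ) (hab : a ≤ b) :
    (((Finset.Ioc a b).filter Nat.Prime).card : ℝ) =
      (Nat.primeCounting b : ℝ) - Nat.primeCounting a := by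
  have h1 : ∀ n : ℕ, Nat.primeCounting n = ((Finset.range (n + 1)).filter Nat.Prime).card := by
    intro n
    show Nat.count Nat.Prime (n + 1) = _
    rw [Nat.count_eq_card_filter_range]
  have h2 : (Finset.range (b + 1)).filter Nat.Prime =
      (Finset.range (a + 1)).filter Nat.Prime ∪ (Finset.Ioc a b).filter Nat.Prime := by
    ext p
    simp only [Finset.mem_filter, Finset.mem_range, Finset.mem_union, Finset.mem_Ioc]
    constructor
    · rintro ⟨h, hp⟩
      rcases Nat.lt_or_ge p (a + 1) with h' | h'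
      · exact Or.inl ⟨h', hp⟩
      · exact Or.inr ⟨⟨by omega, by omega⟩, hp⟩
    · rintro (⟨h, hp⟩ | ⟨⟨h, h'⟩, hp⟩)
      · exact ⟨by omega, hp⟩
      · exact ⟨by omega, hp⟩
  have h3 : Disjoint ((Finset.range (a + 1)).filter Nat.Prime)
      ((Finset.Ioc a b).filter Nat.Prime) := by
    rw [Finset.disjoint_left]
    intro p hp hp'
    have e1 := (Finset.mem_filter.1 hp).1
    have e2 := (Finset.mem_filter.1 hp').1
    rw [Finset.mem_range] at e1
    rw [Finset.mem_Ioc] at e2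
    omega
  rw [h1 a, h1 b, h2, Finset.card_union_of_disjoint h3]
  push_cast
  ring

/-- the exceptional set in terms of `Exc` -/
theorem exc_of (lam ε x y : ℝ) (hlam : 0 < lam) (h1 : lam * Real.sqrt x ≤ y) (h2 : y ≤ x)
    (h3 : ε * (y / Real.log x) <
      |((Nat.primeCounting ⌊x + y⌋₊ : ℝ) - Nat.primeCounting ⌊x⌋₊) - y / Real.log x|) :
    Exc lam ε x := by
  refine ⟨y, h1, h2, ?_⟩
  have hy : 0 ≤ y := (mul_nonneg hlam.le (Real.sqrt_nonneg x)).trans h1
  unfold pc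
  rw [card_primes _ _ (Nat.floor_mono (by linarith))]
  exact h3

end XF

open XF in
theorem prf_F : StFS := by
  intro hS lam ε hlam hε
  obtain ⟨C0, hC0, hS⟩ := hS lam ε hlam hε
  obtain ⟨s, hs⟩ : ∃ s : ℝ, s = (1 + r1) / 2 := ⟨_, rfl⟩
  have hr : r1 = 389 / 2000 := by unfold r1; norm_num
  have hs0 : 0 < s := by rw [hs, hr]; norm_num
  have hs1 : s ≤ 239 / 400 := by rw [hs, hr]; norm_num
  obtain ⟨q, hq⟩ : ∃ q : ℝ, q = (2 / 3 : ℝ) ^ s := ⟨_, rfl⟩
  have hq0 : 0 < q := by rw [hq]; positivity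
  have hq1 : q < 1 := by rw [hq]; exact Real.rpow_lt_one (by norm_num) (by norm_num) hs0
  refine ⟨2 * C0 ^ 2 + C0 / (1 - q), fun X hX => ?_⟩
  have hX0 : 0 < X := by linarith
  let T : ℕ → ℝ := fun n => Real.sqrt (X * (2 / 3) ^ n / 2)
  have hT2 : ∀ n, T n ^ 2 = X * (2 / 3) ^ n / 2 := fun n => Real.sq_sqrt (by positivity)
  have hTs : ∀ n, T n ^ (1 + r1) ≤ X ^ s * q ^ n := by
    intro n
    have e1 : T n ^ (1 + r1) = (X * (2 / 3) ^ n / 2) ^ s := by
      show (Real.sqrt (X * (2 / 3) ^ n / 2)) ^ (1 + r1) = _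
      rw [Real.sqrt_eq_rpow, ← Real.rpow_mul (by positivity)]
      congr 1
      rw [hs]; ring
    have e2 : (X * (2 / 3) ^ n / 2) ^ s ≤ (X * (2 / 3) ^ n) ^ s := by
      apply Real.rpow_le_rpow (by positivity) _ hs0.le
      have : 0 < X * (2 / 3 : ℝ) ^ n := by positivity
      linarith
    have e3 : (X * (2 / 3 : ℝ) ^ n) ^ s = X ^ s * q ^ n := by
      rw [Real.mul_rpow hX0.le (by positivity), hq, ← Real.rpow_natCast, ← Real.rpow_natCast,
        ← Real.rpow_mul (by norm_num), ← Real.rpow_mul (by norm_num), mul_comm s]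
    rw [e1]
    exact e2.trans_eq e3
  let A : ℕ → Set ℝ := fun n =>
    if C0 ≤ T n then {x : ℝ | 4 / 3 * T n ^ 2 ≤ x ∧ x ≤ 2 * T n ^ 2 ∧ Exc lam ε x} else ∅
  have hA : ∀ n, volume (A n) ≤ ENNReal.ofReal (C0 * X ^ s * q ^ n) := by
    intro n
    show volume (if C0 ≤ T n then {x : ℝ | 4 / 3 * T n ^ 2 ≤ x ∧ x ≤ 2 * T n ^ 2 ∧ Exc lam ε x}
      else ∅) ≤ _
    split_ifs with h
    · refine (hS (T n) h).trans (ENNReal.ofReal_le_ofReal ?_)
      rw [mul_assoc]
      exact mul_le_mul_of_nonneg_left (hTs n) (by linarith)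
    · simp
  have hsub : {x : ℝ | 1 ≤ x ∧ x ≤ X ∧ ∃ y : ℝ, lam * Real.sqrt x ≤ y ∧ y ≤ x ∧
      ε * (y / Real.log x) <
        |((Nat.primeCounting ⌊x + y⌋₊ : ℝ) - Nat.primeCounting ⌊x⌋₊) - y / Real.log x|} ⊆
      Icc 0 (2 * C0 ^ 2) ∪ ⋃ n, A n := by
    rintro x ⟨hx1, hx2, y, hy1, hy2, hy3⟩
    have hexc := exc_of lam ε x y hlam hy1 hy2 hy3
    have hx0 : 0 < x := by linarith
    obtain ⟨n, hn1, hn2⟩ := exists_nat_pow_near_of_lt_one (x := x / X) (y := (2 / 3 : ℝ))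
      (by positivity) ((div_le_one hX0).2 hx2) (by norm_num) (by norm_num)
    have hn1' : X * (2 / 3 : ℝ) ^ (n + 1) < x := by
      rw [lt_div_iff₀ hX0] at hn1
      linarith
    have hn2' : x ≤ X * (2 / 3 : ℝ) ^ n := by
      rw [div_le_iff₀ hX0] at hn2
      linarith
    rcases le_or_gt C0 (T n) with h | h
    · right
      refine mem_iUnion.2 ⟨n, ?_⟩
      show x ∈ (if C0 ≤ T n then {x : ℝ | 4 / 3 * T n ^ 2 ≤ x ∧ x ≤ 2 * T n ^ 2 ∧ Exc lam ε x}
        else ∅)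
      rw [if_pos h]
      refine ⟨?_, ?_, hexc⟩
      · rw [hT2]
        have : (2 / 3 : ℝ) ^ (n + 1) = (2 / 3) ^ n * (2 / 3) := pow_succ _ _
        rw [this] at hn1'
        linarith
      · rw [hT2]; linarith
    · left
      refine ⟨hx0.le, ?_⟩
      have h1 : T n ^ 2 ≤ C0 ^ 2 := pow_le_pow_left₀ (Real.sqrt_nonneg _) h.le 2
      rw [hT2] at h1
      linarith
  refine (measure_mono hsub).trans ((measure_union_le _ _).trans ?_)
  have h1 : volume (Icc (0 : ℝ) (2 * C0 ^ 2)) = ENNReal.ofReal (2 * C0 ^ 2) := by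
    rw [Real.volume_Icc, sub_zero]
  have hsum : ∑' n : ℕ, C0 * X ^ s * q ^ n = C0 * X ^ s / (1 - q) := by
    rw [tsum_mul_left, tsum_geometric_of_lt_one hq0.le hq1]
    rfl
  have h2 : volume (⋃ n, A n) ≤ ENNReal.ofReal (C0 * X ^ s / (1 - q)) := by
    refine (measure_iUnion_le A).trans ((ENNReal.tsum_le_tsum hA).trans ?_)
    rw [← ENNReal.ofReal_tsum_of_nonneg (fun n => by positivity)
      ((summable_geometric_of_lt_one hq0.le hq1).mul_left _), hsum]
  rw [h1]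
  refine (add_le_add le_rfl h2).trans ?_
  have hq1' : 0 < 1 - q := by linarith
  rw [← ENNReal.ofReal_add (by positivity) (by positivity)]
  apply ENNReal.ofReal_le_ofReal
  have hXs : X ^ s ≤ X ^ (239 / 400 : ℝ) := Real.rpow_le_rpow_of_exponent_le hX hs1
  have hX1 : 1 ≤ X ^ (239 / 400 : ℝ) := Real.one_le_rpow hX (by norm_num)
  have e1 : 2 * C0 ^ 2 ≤ 2 * C0 ^ 2 * X ^ (239 / 400 : ℝ) :=
    le_mul_of_one_le_right (by positivity) hX1
  have e2 : C0 * X ^ s / (1 - q) ≤ C0 / (1 - q) * X ^ (239 / 400 : ℝ) := by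
    rw [mul_div_right_comm]
    exact mul_le_mul_of_nonneg_left hXs (by positivity)
  rw [add_mul]
  exact add_le_add e1 e2

end Pool.Agent.Work.MP_9ecf5f_nt.AE
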