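import Pool.Agent.Work.MP_9ecf5f_nt.AE.Stmts

/-! MP_9ecf5f_nt, block AE, item L (averages over windows). Author: helper73. -/

set_option autoImplicit false

open MeasureTheory Set

noncomputable section

namespace Pool.Agent.Work.MP_9ecf5f_nt.AE

namespace XL

/-- the function of one prime -/
def f (u : ℝ) (p : ℕ) : ℝ → ℝ :=
  indicator (Ico ((p : ℝ) * Real.exp (-u)) (p : ℝ)) (fun t => 1 / t)

lemma f_nonneg (u : ℝ) (p : ℕ) (hp : 0 < p) (t : ℝ) : 0 ≤ f u p t := by
  unfold f
  apply indicator_nonneg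
  intro x hx
  have h1 : (0:ℝ) < (p : ℝ) * Real.exp (-u) := by positivity
  have h2 : 0 < x := lt_of_lt_of_le h1 hx.1
  positivity

lemma inv_int (α β : ℝ) (hα : 0 < α) : IntegrableOn (fun t : ℝ => 1 / t) (Ico α β) := by
  have h : IntegrableOn (fun t : ℝ => 1 / t) (Icc α β) := by
    apply ContinuousOn.integrableOn_Icc
    intro x hx
    have hx0 : x ≠ 0 := (lt_of_lt_of_le hα hx.1).ne'
    exact (continuousAt_const.div continuousAt_id hx0).continuousWithinAt
  exact h.mono_set Ico_subset_Icc_self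

lemma f_int (u : ℝ) (p : ℕ) (hp : 0 < p) : Integrable (f u p) := by
  unfold f
  rw [integrable_indicator_iff measurableSet_Ico]
  apply inv_int
  positivity

lemma tot (u : ℝ) (hu : 0 < u) (p : ℕ) (hp : 0 < p) :
    ∫ t in Ico ((p : ℝ) * Real.exp (-u)) (p : ℝ), 1 / t = u := by
  have hp' : (0:ℝ) < p := by exact_mod_cast hp
  have h1 : (0:ℝ) < (p : ℝ) * Real.exp (-u) := by positivity
  have h2 : (p : ℝ) * Real.exp (-u) ≤ p := by
    have : Real.exp (-u) ≤ 1 := by
      rw [Real.exp_le_one_iff]; linarith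
    nlinarith
  rw [integral_Ico_eq_integral_Ioc, ← intervalIntegral.integral_of_le h2,
    integral_one_div_of_pos h1 hp']
  have h3 : (p : ℝ) / ((p : ℝ) * Real.exp (-u)) = Real.exp u := by
    rw [Real.exp_neg]
    field_simp
  rw [h3, Real.log_exp]

lemma part (u : ℝ) (p : ℕ) (S : Set ℝ) :
    ∫ t in S, f u p t = ∫ t in S ∩ Ico ((p : ℝ) * Real.exp (-u)) (p : ℝ), 1 / t := by
  unfold f
  rw [setIntegral_indicator measurableSet_Ico]

lemma part_le (u : ℝ) (hu : 0 < u) (p : ℕ) (hp : 0 < p) (S : Set ℝ) (_hS : MeasurableSet S) :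
    ∫ t in S, f u p t ≤ u := by
  rw [part]
  calc ∫ t in S ∩ Ico ((p : ℝ) * Real.exp (-u)) (p : ℝ), 1 / t
      ≤ ∫ t in Ico ((p : ℝ) * Real.exp (-u)) (p : ℝ), 1 / t := by
        apply setIntegral_mono_set
        · apply inv_int; positivity
        · rw [Filter.EventuallyLE, ae_restrict_iff' measurableSet_Ico]
          refine Filter.Eventually.of_forall ?_
          intro x hx
          have h1 : (0:ℝ) < (p : ℝ) * Real.exp (-u) := by positivity
          have h2 : 0 < x := lt_of_lt_of_le h1 hx.1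
          show (0:ℝ) ≤ 1 / x
          positivity
        · exact (inter_subset_right : S ∩ _ ⊆ _).eventuallyLE
    _ = u := tot u hu p hp

/-- the finite set of primes -/
def Q (u a b : ℝ) : Finset ℕ := (Finset.Ioc ⌊a⌋₊ ⌊b * Real.exp u⌋₊).filter Nat.Prime

lemma Qpos {u a b : ℝ} {p : ℕ} (hp : p ∈ Q u a b) : 0 < p := by
  unfold Q at hp
  rw [Finset.mem_filter] at hp
  exact hp.2.pos

lemma key (μ T a b t : ℝ) (ha : 0 < a) (hat : a ≤ t) (htb : t ≤ b) :
    cnt μ T t / t = ∑ p ∈ Q (μ / T) a b, f (μ / T) p t := by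
  have ht : 0 < t := lt_of_lt_of_le ha hat
  set u := μ / T with hu
  have h1 : cnt μ T t = ∑ p ∈ Q u a b, (if t < p ∧ (p:ℝ) ≤ t * Real.exp u then (1:ℝ) else 0) := by
    unfold cnt pc
    rw [← hu, Finset.card_eq_sum_ones, Nat.cast_sum, ← Finset.sum_filter]
    simp only [Nat.cast_one]
    apply Finset.sum_congr _ (fun _ _ => rfl)
    unfold Q
    ext p
    simp only [Finset.mem_filter, Finset.mem_Ioc]
    constructor
    · rintro ⟨⟨h1, h2⟩, h3⟩
      refine ⟨⟨⟨lt_of_le_of_lt (Nat.floor_mono hat) h1, le_trans h2 (Nat.floor_mono ?_)⟩, h3⟩, ?_, ?_⟩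
      · exact mul_le_mul_of_nonneg_right htb (Real.exp_pos _).le
      · exact (Nat.floor_lt ht.le).1 h1
      · exact (Nat.le_floor_iff (by positivity)).1 h2
    · rintro ⟨⟨⟨h1, h2⟩, h3⟩, h4, h5⟩
      exact ⟨⟨(Nat.floor_lt ht.le).2 h4, (Nat.le_floor_iff (by positivity)).2 h5⟩, h3⟩
  rw [h1, Finset.sum_div]
  apply Finset.sum_congr rfl
  intro p hp
  unfold f
  by_cases h : t < p ∧ (p:ℝ) ≤ t * Real.exp u
  · rw [if_pos h, indicator_of_mem]
    refine ⟨?_, h.1⟩
    have h2 := mul_le_mul_of_nonneg_right h.2 (Real.exp_pos (-u)).le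
    rw [mul_assoc, ← Real.exp_add] at h2
    simpa using h2
  · rw [if_neg h, indicator_of_notMem]
    · simp
    · intro h3
      apply h
      refine ⟨h3.2, ?_⟩
      have h2 := mul_le_mul_of_nonneg_right h3.1 (Real.exp_pos u).le
      rw [mul_assoc, ← Real.exp_add] at h2
      simpa using h2

lemma int_on (μ T a b : ℝ) (ha : 0 < a) :
    IntegrableOn (fun t => cnt μ T t / t) (Icc a b) := by
  have h : IntegrableOn (fun t => ∑ p ∈ Q (μ / T) a b, f (μ / T) p t) (Icc a b) := by
    apply integrable_finsetSum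
    intro p hp
    exact (f_int _ p (Qpos hp)).integrableOn
  refine h.congr_fun ?_ measurableSet_Icc
  intro t ht
  exact (key μ T a b t ha ht.1 ht.2).symm

lemma int_eq (μ T a b : ℝ) (ha : 0 < a) :
    ∫ t in Icc a b, cnt μ T t / t = ∑ p ∈ Q (μ / T) a b, ∫ t in Icc a b, f (μ / T) p t := by
  rw [← integral_finsetSum]
  · apply setIntegral_congr_fun measurableSet_Icc
    intro t ht
    exact key μ T a b t ha ht.1 ht.2
  · intro p hp
    exact (f_int _ p (Qpos hp)).integrableOn

end XL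

open XL

theorem prf_L : StL := by
  intro μ T a b hμ hT ha hab
  have hu : 0 < μ / T := by positivity
  set u := μ / T with hudef
  refine ⟨int_on μ T a b ha, ?_, ?_⟩
  · rw [int_eq μ T a b ha]
    calc ∑ p ∈ Q (μ / T) a b, ∫ t in Icc a b, f (μ / T) p t
        ≤ ∑ p ∈ Q (μ / T) a b, u := by
          apply Finset.sum_le_sum
          intro p hp
          exact part_le _ hu p (Qpos hp) _ measurableSet_Icc
      _ = u * pc a (b * Real.exp u) := by
          rw [Finset.sum_const, nsmul_eq_mul, mul_comm]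
          rfl
  · have ha' : 0 < a * Real.exp (-u) := by positivity
    rw [int_eq μ T _ b ha']
    have hsub : (Finset.Ioc ⌊a⌋₊ ⌊b⌋₊).filter Nat.Prime ⊆ Q (μ / T) (a * Real.exp (-u)) b := by
      intro p hp
      rw [Finset.mem_filter, Finset.mem_Ioc] at hp
      unfold Q
      rw [Finset.mem_filter, Finset.mem_Ioc]
      refine ⟨⟨lt_of_le_of_lt (Nat.floor_mono ?_) hp.1.1, le_trans hp.1.2 (Nat.floor_mono ?_)⟩, hp.2⟩
      · have : Real.exp (-u) ≤ 1 := by
          rw [Real.exp_le_one_iff]; linarith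
        nlinarith
      · have : 1 ≤ Real.exp (μ / T) := by
          rw [Real.one_le_exp_iff]; positivity
        nlinarith
    calc u * pc a b = ∑ p ∈ (Finset.Ioc ⌊a⌋₊ ⌊b⌋₊).filter Nat.Prime, u := by
          rw [Finset.sum_const, nsmul_eq_mul, mul_comm]
          rfl
      _ = ∑ p ∈ (Finset.Ioc ⌊a⌋₊ ⌊b⌋₊).filter Nat.Prime,
            ∫ t in Icc (a * Real.exp (-u)) b, f (μ / T) p t := by
          apply Finset.sum_congr rfl
          intro p hp
          rw [Finset.mem_filter, Finset.mem_Ioc] at hp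
          rw [part, inter_eq_self_of_subset_right, tot u hu p hp.2.pos]
          intro t ht
          have h1 : a < p := (Nat.floor_lt ha.le).1 hp.1.1
          have h2 : (p:ℝ) ≤ b := (Nat.le_floor_iff (by linarith)).1 hp.1.2
          refine ⟨le_trans ?_ ht.1, le_trans ht.2.le h2⟩
          exact mul_le_mul_of_nonneg_right h1.le (Real.exp_pos _).le
      _ ≤ ∑ p ∈ Q (μ / T) (a * Real.exp (-u)) b,
            ∫ t in Icc (a * Real.exp (-u)) b, f (μ / T) p t := by
          apply Finset.sum_le_sum_of_subset_of_nonneg hsub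
          intro p hp _
          apply integral_nonneg
          intro t
          exact f_nonneg _ p (Qpos hp) t

end Pool.Agent.Work.MP_9ecf5f_nt.AE
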