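import Pool.Agent.Work.MP_9ecf5f_nt.AE.Stmts

/-!
MP_9ecf5f_nt, block AE, ITEM M: a covering inequality (Vitali). Author: helper82.
-/

set_option autoImplicit false

open MeasureTheory Set

noncomputable section

namespace Pool.Agent.Work.MP_9ecf5f_nt.AE

namespace XM

theorem main (B A : Set ℝ) (δ R : ℝ) (hδ : 0 < δ)
    (hA : ∀ x ∈ A, ∃ r : ℝ, 0 < r ∧ r ≤ R ∧ ENNReal.ofReal (δ * r) ≤ volume (B ∩ Icc (x - r) (x + r))) :
    volume A ≤ ENNReal.ofReal (10 / δ) * volume B := by
  classical
  choose! r hr0 hrR hrB using hA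
  obtain ⟨u, huA, hud, hucov⟩ :=
    Vitali.exists_disjoint_subfamily_covering_enlargement_closedBall A (fun x : ℝ => x) r R hrR 5
      (by norm_num)
  have hucount : u.Countable := by
    apply hud.countable_of_nonempty_interior
    intro a ha
    have hra := hr0 a (huA ha)
    exact ⟨a, Metric.ball_subset_interior_closedBall (Metric.mem_ball_self hra)⟩
  have hcov : A ⊆ ⋃ b ∈ u, Metric.closedBall b (5 * r b) := by
    intro a ha
    obtain ⟨b, hb, hab⟩ := hucov a ha
    exact mem_iUnion₂.2 ⟨b, hb, hab (Metric.mem_closedBall_self (hr0 a ha).le)⟩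
  have hdisj : u.PairwiseDisjoint (fun b => Metric.closedBall b (r b)) := hud
  have hsum : ∑' b : u, volume (B ∩ Metric.closedBall (b : ℝ) (r b)) ≤ volume B := by
    have : Countable u := hucount.to_subtype
    have h1 : ∑' b : u, (volume.restrict B) (Metric.closedBall (b : ℝ) (r b)) =
        (volume.restrict B) (⋃ b : u, Metric.closedBall (b : ℝ) (r b)) := by
      rw [measure_iUnion]
      · intro a b hab
        exact hdisj a.2 b.2 (fun h => hab (Subtype.ext h))
      · intro b
        exact Metric.isClosed_closedBall.measurableSet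
    have h2 : ∀ b : u, volume (B ∩ Metric.closedBall (b : ℝ) (r b)) =
        (volume.restrict B) (Metric.closedBall (b : ℝ) (r b)) := by
      intro b
      rw [Measure.restrict_apply Metric.isClosed_closedBall.measurableSet, inter_comm]
    simp_rw [h2]
    rw [h1]
    exact (measure_mono (subset_univ _)).trans (by simp)
  have hball : ∀ b : u, volume (Metric.closedBall (b : ℝ) (5 * r b)) ≤
      ENNReal.ofReal (10 / δ) * volume (B ∩ Metric.closedBall (b : ℝ) (r b)) := by
    intro b
    have hb := huA b.2
    have h1 := hrB b hb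
    have hr := hr0 b hb
    rw [Real.closedBall_eq_Icc, Real.volume_Icc]
    rw [Real.closedBall_eq_Icc]
    calc ENNReal.ofReal ((b : ℝ) + 5 * r b - (b - 5 * r b))
        = ENNReal.ofReal ((10 / δ) * (δ * r b)) := by
          congr 1
          field_simp
          ring
      _ = ENNReal.ofReal (10 / δ) * ENNReal.ofReal (δ * r b) := by
          rw [ENNReal.ofReal_mul (by positivity)]
      _ ≤ _ := by gcongr
  have : Countable u := hucount.to_subtype
  calc volume A ≤ volume (⋃ b ∈ u, Metric.closedBall b (5 * r b)) := measure_mono hcov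
    _ = volume (⋃ b : u, Metric.closedBall (b : ℝ) (5 * r b)) := by rw [biUnion_eq_iUnion]
    _ ≤ ∑' b : u, volume (Metric.closedBall (b : ℝ) (5 * r b)) := measure_iUnion_le _
    _ ≤ ∑' b : u, ENNReal.ofReal (10 / δ) * volume (B ∩ Metric.closedBall (b : ℝ) (r b)) :=
        ENNReal.tsum_le_tsum hball
    _ = ENNReal.ofReal (10 / δ) * ∑' b : u, volume (B ∩ Metric.closedBall (b : ℝ) (r b)) :=
        ENNReal.tsum_mul_left
    _ ≤ ENNReal.ofReal (10 / δ) * volume B := by gcongr

end XM

/-- ITEM M. -/
theorem prf_M : StM := fun B A δ R hδ hA => XM.main B A δ R hδ hA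

end Pool.Agent.Work.MP_9ecf5f_nt.AE
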