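import Pool.Agent.Work.MP_9ecf5f_nt.AE.Stmts

/-!
MP_9ecf5f_nt, block AE, item S. Author: helper76.
-/

set_option autoImplicit false

open MeasureTheory Set

noncomputable section

namespace Pool.Agent.Work.MP_9ecf5f_nt.AE

open Pool.Agent.Work.MP_a8fbd7_nt.OX (PackLe LSep r1)

namespace XS

/-- lower bound for an integral with an exceptional set -/
theorem int_low (f : ℝ → ℝ) (a b c g : ℝ) (G : Set ℝ) (hG : MeasurableSet G) (hab : a ≤ b)
    (hf : IntegrableOn f (Icc a b)) (h0 : ∀ t ∈ Icc a b, 0 ≤ f t) (hc0 : 0 ≤ c)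
    (hc : ∀ t ∈ Icc a b, t ∉ G → c ≤ f t) (hvol : volume G ≤ ENNReal.ofReal g) (hg : 0 ≤ g) :
    c * (b - a - g) ≤ ∫ t in Icc a b, f t := by
  have hfin : volume.restrict (Icc a b) G ≠ ⊤ :=
    ((Measure.restrict_apply_le _ _).trans_lt (hvol.trans_lt ENNReal.ofReal_lt_top)).ne
  have hi : IntegrableOn (G.indicator fun _ => c) (Icc a b) :=
    (integrable_indicator_iff hG).2 (integrableOn_const hfin)
  have h1 : ∫ t in Icc a b, (c : ℝ) ≤ ∫ t in Icc a b, (f t + G.indicator (fun _ => c) t) := by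
    refine setIntegral_mono_on (integrableOn_const (by simp)) (hf.add hi) measurableSet_Icc ?_
    intro t ht
    by_cases htG : t ∈ G
    · rw [indicator_of_mem htG]
      linarith [h0 t ht]
    · rw [indicator_of_notMem htG]
      linarith [hc t ht htG]
  rw [integral_add hf hi, setIntegral_const, integral_indicator hG, setIntegral_const] at h1
  have h2 : (volume : Measure ℝ).real (Icc a b) = b - a := by
    rw [Measure.real, Real.volume_Icc, ENNReal.toReal_ofReal (by linarith)]
  have h3 : (volume.restrict (Icc a b)).real G ≤ g := by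
    rw [Measure.real]
    refine ENNReal.toReal_le_of_le_ofReal hg ?_
    exact (Measure.restrict_apply_le _ _).trans hvol
  rw [h2, smul_eq_mul, smul_eq_mul] at h1
  have h4 : (volume.restrict (Icc a b)).real G * c ≤ g * c := mul_le_mul_of_nonneg_right h3 hc0
  nlinarith

/-- upper bound for an integral with an exceptional set -/
theorem int_up (f : ℝ → ℝ) (a b c1 c2 g : ℝ) (G : Set ℝ) (hG : MeasurableSet G) (hab : a ≤ b)
    (hf : IntegrableOn f (Icc a b)) (hc1 : 0 ≤ c1) (hc2 : 0 ≤ c2)
    (h1 : ∀ t ∈ Icc a b, t ∉ G → f t ≤ c1) (h2 : ∀ t ∈ Icc a b, f t ≤ c2)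
    (hvol : volume G ≤ ENNReal.ofReal g) (hg : 0 ≤ g) :
    ∫ t in Icc a b, f t ≤ c1 * (b - a) + c2 * g := by
  have hfin : volume.restrict (Icc a b) G ≠ ⊤ :=
    ((Measure.restrict_apply_le _ _).trans_lt (hvol.trans_lt ENNReal.ofReal_lt_top)).ne
  have hi : IntegrableOn (G.indicator fun _ => c2) (Icc a b) :=
    (integrable_indicator_iff hG).2 (integrableOn_const hfin)
  have hk : IntegrableOn (fun _ : ℝ => c1) (Icc a b) := integrableOn_const (by simp)
  have h3 : ∫ t in Icc a b, f t ≤ ∫ t in Icc a b, (c1 + G.indicator (fun _ => c2) t) := by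
    refine setIntegral_mono_on hf (hk.add hi) measurableSet_Icc ?_
    intro t ht
    by_cases htG : t ∈ G
    · rw [indicator_of_mem htG]
      linarith [h2 t ht]
    · rw [indicator_of_notMem htG]
      linarith [h1 t ht htG]
  rw [integral_add hk hi, setIntegral_const, integral_indicator hG, setIntegral_const] at h3
  have h4 : (volume : Measure ℝ).real (Icc a b) = b - a := by
    rw [Measure.real, Real.volume_Icc, ENNReal.toReal_ofReal (by linarith)]
  have h5 : (volume.restrict (Icc a b)).real G ≤ g := by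
    rw [Measure.real]
    refine ENNReal.toReal_le_of_le_ofReal hg ?_
    exact (Measure.restrict_apply_le _ _).trans hvol
  rw [h4, smul_eq_mul, smul_eq_mul] at h3
  have h6 : (volume.restrict (Icc a b)).real G * c2 ≤ g * c2 := mul_le_mul_of_nonneg_right h5 hc2
  nlinarith

theorem cnt_nonneg (μ T t : ℝ) : 0 ≤ cnt μ T t := Nat.cast_nonneg _

theorem low_point {μ δ T t cn : ℝ} (hT : 0 < T) (ht : 0 < t) (hl : 0 < Real.log t)
    (h : |Real.log t * (T / t * cn) - μ| ≤ δ * μ) : (1 - δ) * μ / (T * Real.log t) ≤ cn / t := by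
  have h1 := (abs_le.1 h).1
  rw [div_le_div_iff₀ (by positivity) ht]
  have e : Real.log t * (T / t * cn) = cn * (T * Real.log t) / t := by ring
  rw [e] at h1
  have h2 : (1 - δ) * μ ≤ cn * (T * Real.log t) / t := by linarith
  rwa [le_div_iff₀ ht] at h2

theorem up_point {μ δ T t cn : ℝ} (hT : 0 < T) (ht : 0 < t) (hl : 0 < Real.log t)
    (h : |Real.log t * (T / t * cn) - μ| ≤ δ * μ) : cn / t ≤ (1 + δ) * μ / (T * Real.log t) := by
  have h1 := (abs_le.1 h).2
  rw [div_le_div_iff₀ ht (by positivity)]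
  have e : Real.log t * (T / t * cn) = cn * (T * Real.log t) / t := by ring
  rw [e] at h1
  have h2 : cn * (T * Real.log t) / t ≤ (1 + δ) * μ := by linarith
  rwa [div_le_iff₀ ht] at h2

/-- the estimate at one point -/
theorem point (hL : StL) {K lam δ L0 μ T x y : ℝ} (hK : 1 ≤ K) (hδ : 0 < δ) (hδ1 : δ ≤ 1 / 100)
    (hL0 : 0 < L0) (hL1 : L0 ≤ 1) (hlam : L0 ≤ lam) (hμ : μ = δ * L0 / 8) (hT : 1 ≤ T)
    (hlog : 1 / δ ≤ Real.log (T ^ 2)) (hx1 : 4 / 3 * T ^ 2 ≤ x) (hx2 : x ≤ 2 * T ^ 2)
    (hy1 : lam * Real.sqrt x ≤ y) (hy2 : y ≤ x)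
    (hB : ∀ t : ℝ, T ^ 2 / 2 ≤ t → t ≤ 4 * T ^ 2 → cnt μ T t ≤ K * (μ * t / (T * Real.log t)))
    (G : Set ℝ) (hG : MeasurableSet G)
    (hgood : ∀ t : ℝ, T ^ 2 ≤ t → t ≤ 4 * T ^ 2 → x - y ≤ t → t ≤ x + y → t ∉ G →
      |Real.log t * (T / t * cnt μ T t) - μ| ≤ δ * μ)
    (hvol : volume G ≤ ENNReal.ofReal (δ / K * y)) :
    |pc x (x + y) - y / Real.log x| ≤ 5 * δ * (y / Real.log x) := by
  have hT0 : 0 < T := by linarith
  have hT2 : 0 < T ^ 2 := by positivity
  have hx0 : 0 < x := by linarith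
  have hμ0 : 0 < μ := by rw [hμ]; positivity
  have hTsq : T ≤ Real.sqrt x := Real.le_sqrt_of_sq_le (by linarith)
  have hyT : L0 * T ≤ y := by
    have h1 : L0 * T ≤ lam * Real.sqrt x :=
      mul_le_mul hlam hTsq hT0.le (hL0.le.trans hlam)
    linarith
  have hy0 : 0 < y := lt_of_lt_of_le (by positivity) hyT
  set u := μ / T with hu
  have hu0 : 0 < u := by rw [hu]; positivity
  have huT : u * T ^ 2 = μ * T := by rw [hu]; field_simp
  have hu1 : u ≤ 1 / 800 := by
    rw [hu, div_le_iff₀ hT0, hμ]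
    have h1 : δ * L0 ≤ 1 / 100 * 1 := mul_le_mul hδ1 hL1 hL0.le (by norm_num)
    linarith
  have he1 : 1 - u ≤ Real.exp (-u) := by
    have := Real.add_one_le_exp (-u)
    linarith
  have he2 : Real.exp (-u) ≤ 1 := Real.exp_le_one_iff.2 (by linarith)
  have hμT : 8 * (μ * T) ≤ δ * y := by
    rw [hμ]
    have : δ * (L0 * T) ≤ δ * y := mul_le_mul_of_nonneg_left hyT hδ.le
    linarith
  have hlogT : 100 ≤ Real.log (T ^ 2) := by
    refine le_trans ?_ hlog
    rw [le_div_iff₀ hδ]
    linarith
  have hTx : T ^ 2 ≤ x := by linarith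
  set lx := Real.log x with hlx
  have hlx1 : Real.log (T ^ 2) ≤ lx := Real.log_le_log hT2 hTx
  have hlx0 : 0 < lx := by linarith
  have hδlx : 1 ≤ δ * lx := by
    have h1 : 1 / δ ≤ lx := hlog.trans hlx1
    rw [div_le_iff₀ hδ] at h1
    linarith
  have hlog2 : Real.log 2 ≤ 1 := by linarith [Real.log_two_lt_d9]
  have hg0 : 0 ≤ δ / K * y := by positivity
  have hK0 : 0 < K := by linarith
  have hgK : δ / K * y ≤ δ * y := by
    refine mul_le_mul_of_nonneg_right ?_ hy0.le
    exact div_le_self hδ.le hK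
  have hxy : x + y ≤ 4 * T ^ 2 := by linarith
  -- lower bound
  have hlow : (1 - 5 * δ) * (y / lx) ≤ pc x (x + y) := by
    set b := (x + y) * Real.exp (-u) with hb
    have hb1 : x + y - (x + y) * u ≤ b := by
      rw [hb]
      nlinarith
    have hb2 : (x + y) * u ≤ δ * y / 2 := by
      have h1 : (x + y) * u ≤ 4 * T ^ 2 * u := mul_le_mul_of_nonneg_right hxy hu0.le
      nlinarith
    have hb3 : b ≤ x + y := by
      rw [hb]
      exact mul_le_of_le_one_right (by linarith) he2
    have hxb : x ≤ b := by nlinarith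
    obtain ⟨hi, hl1, -⟩ := hL μ T x b hμ0 hT0 hx0 hxb
    have hbe : b * Real.exp (μ / T) = x + y := by
      rw [hb, ← hu, mul_assoc, ← Real.exp_add, neg_add_cancel, Real.exp_zero, mul_one]
    rw [hbe] at hl1
    set lb := Real.log (x + y) with hlb
    have hlb1 : lx ≤ lb := Real.log_le_log hx0 (by linarith)
    have hlb0 : 0 < lb := by linarith
    have hlb2 : lb ≤ (1 + δ) * lx := by
      have h1 : lb ≤ Real.log (2 * x) := Real.log_le_log (by linarith) (by linarith)
      rw [Real.log_mul (by norm_num) hx0.ne'] at h1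
      linarith
    have key := int_low (fun t => cnt μ T t / t) x b ((1 - δ) * μ / (T * lb)) (δ / K * y) G hG hxb hi
      (fun t ht => div_nonneg (cnt_nonneg _ _ _) (hx0.le.trans ht.1))
      (div_nonneg (mul_nonneg (by linarith) hμ0.le) (by positivity)) ?_ hvol hg0
    · have h1 := key.trans hl1
      have h2 : (1 - δ) * μ / (T * lb) * (b - x - δ / K * y) =
          μ / T * ((1 - δ) / lb * (b - x - δ / K * y)) := by
        field_simp
      rw [h2] at h1
      have h3 := le_of_mul_le_mul_left h1 hu0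
      refine le_trans ?_ h3
      have h4 : y * (1 - 3 / 2 * δ) ≤ b - x - δ / K * y := by nlinarith
      have h5 : 0 ≤ 1 - 3 / 2 * δ := by linarith
      calc (1 - 5 * δ) * (y / lx) ≤ (1 - δ) / ((1 + δ) * lx) * (y * (1 - 3 / 2 * δ)) := by
            rw [mul_div_assoc', div_mul_eq_mul_div, div_le_div_iff₀ hlx0 (by positivity)]
            have h6 : (1 - 5 * δ) * (1 + δ) ≤ (1 - δ) * (1 - 3 / 2 * δ) := by nlinarith
            have h7 := mul_le_mul_of_nonneg_right h6 (mul_pos hy0 hlx0).le
            nlinarith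
        _ ≤ (1 - δ) / lb * (y * (1 - 3 / 2 * δ)) := by
            refine mul_le_mul_of_nonneg_right ?_ (by positivity)
            exact div_le_div_of_nonneg_left (by linarith) hlb0 hlb2
        _ ≤ (1 - δ) / lb * (b - x - δ / K * y) := by
            refine mul_le_mul_of_nonneg_left h4 ?_
            exact div_nonneg (by linarith) hlb0.le
    · intro t ht htG
      have ht1 : T ^ 2 ≤ t := hTx.trans ht.1
      have ht0 : 0 < t := by linarith
      have ht2 : t ≤ x + y := ht.2.trans hb3
      have hlt : 0 < Real.log t := by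
        have := Real.log_le_log hT2 ht1
        linarith
      refine le_trans ?_ (low_point hT0 ht0 hlt (hgood t ht1 (by linarith) (by linarith [ht.1]) ht2 htG))
      refine div_le_div_of_nonneg_left (mul_nonneg (by linarith) hμ0.le) (by positivity) ?_
      exact mul_le_mul_of_nonneg_left (Real.log_le_log ht0 ht2) hT0.le
  -- upper bound
  have hup : pc x (x + y) ≤ (1 + 5 * δ) * (y / lx) := by
    obtain ⟨-, -, hl2⟩ := hL μ T x (x + y) hμ0 hT0 hx0 (by linarith)
    rw [← hu] at hl2
    set a := x * Real.exp (-u) with ha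
    have ha1 : x - x * u ≤ a := by
      rw [ha]
      nlinarith
    have ha2 : x * u ≤ δ * y / 4 := by
      have h1 : x * u ≤ 2 * T ^ 2 * u := mul_le_mul_of_nonneg_right hx2 hu0.le
      nlinarith
    have ha3 : a ≤ x := by
      rw [ha]
      exact mul_le_of_le_one_right hx0.le he2
    have haT : T ^ 2 ≤ a := by nlinarith
    have hax : x / 2 ≤ a := by nlinarith
    have ha0 : 0 < a := by linarith
    obtain ⟨hi, -, -⟩ := hL μ T a (x + y) hμ0 hT0 ha0 (by linarith)
    set la := Real.log a with hla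
    have hla1 : (1 - δ) * lx ≤ la := by
      have h1 : Real.log (x / 2) ≤ la := Real.log_le_log (by linarith) hax
      rw [Real.log_div hx0.ne' (by norm_num)] at h1
      linarith
    have hla0 : 0 < la := lt_of_lt_of_le (mul_pos (by linarith) hlx0) hla1
    have key := int_up (fun t => cnt μ T t / t) a (x + y) ((1 + δ) * μ / (T * la)) (K * μ / (T * la))
      (δ / K * y) G hG (by linarith) hi (by positivity) (by positivity) ?_ ?_ hvol hg0
    · have h1 := hl2.trans key
      have h2 : (1 + δ) * μ / (T * la) * (x + y - a) + K * μ / (T * la) * (δ / K * y) =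
          u * (((1 + δ) * (x + y - a) + δ * y) / la) := by
        rw [hu]
        field_simp
      rw [h2] at h1
      have h3 := le_of_mul_le_mul_left h1 hu0
      refine h3.trans ?_
      have h4 : x + y - a ≤ y * (1 + δ / 4) := by nlinarith
      have h5 : (1 + δ) * (x + y - a) + δ * y ≤ (1 + 5 / 2 * δ) * y := by nlinarith
      calc ((1 + δ) * (x + y - a) + δ * y) / la ≤ ((1 + 5 / 2 * δ) * y) / la :=
            div_le_div_of_nonneg_right h5 hla0.le
        _ ≤ ((1 + 5 / 2 * δ) * y) / ((1 - δ) * lx) :=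
            div_le_div_of_nonneg_left (by positivity) (mul_pos (by linarith) hlx0) hla1
        _ ≤ (1 + 5 * δ) * (y / lx) := by
            rw [mul_div_assoc', div_le_div_iff₀ (mul_pos (by linarith) hlx0) hlx0]
            have h6 : 1 + 5 / 2 * δ ≤ (1 + 5 * δ) * (1 - δ) := by nlinarith
            have h7 := mul_le_mul_of_nonneg_right h6 (mul_pos hy0 hlx0).le
            nlinarith
    · intro t ht htG
      have ht1 : T ^ 2 ≤ t := haT.trans ht.1
      have ht0 : 0 < t := by linarith
      have hlt : 0 < Real.log t := by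
        have := Real.log_le_log hT2 ht1
        linarith
      have hty : x - y ≤ t := by
        have : δ * y / 4 ≤ y := by nlinarith
        linarith [ht.1]
      refine (up_point hT0 ht0 hlt (hgood t ht1 (ht.2.trans hxy) hty ht.2 htG)).trans ?_
      refine div_le_div_of_nonneg_left (by positivity) (by positivity) ?_
      exact mul_le_mul_of_nonneg_left (Real.log_le_log ha0 ht.1) hT0.le
    · intro t ht
      have ht1 : T ^ 2 ≤ t := haT.trans ht.1
      have ht0 : 0 < t := by linarith
      have hlt : 0 < Real.log t := by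
        have := Real.log_le_log hT2 ht1
        linarith
      have h1 := hB t (by linarith) (ht.2.trans hxy)
      have h2 : cnt μ T t / t ≤ K * μ / (T * Real.log t) := by
        rw [div_le_iff₀ ht0]
        refine h1.trans (le_of_eq ?_)
        ring
      refine h2.trans ?_
      refine div_le_div_of_nonneg_left (by positivity) (by positivity) ?_
      exact mul_le_mul_of_nonneg_left (Real.log_le_log ha0 ht.1) hT0.le
  rw [abs_le]
  constructor <;> linarith

end XS

open XS in
/-- **ITEM S** -/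
theorem prf_S (hW : StW) (hV : StV) (hL : StL) (hBT : StB) (hM : StM) : StS := by
  intro lam ε hlam hε
  obtain ⟨K, hK, hK2⟩ := hBT
  set δ : ℝ := min (1 / 100) (ε / 5) with hδ
  have hδ0 : 0 < δ := by rw [hδ]; positivity
  have hδ1 : δ ≤ 1 / 100 := min_le_left _ _
  have hδε : 5 * δ ≤ ε := by
    have : δ ≤ ε / 5 := min_le_right _ _
    linarith
  set L0 : ℝ := min lam 1 with hL0
  have hL00 : 0 < L0 := by rw [hL0]; positivity
  have hL01 : L0 ≤ 1 := min_le_right _ _
  have hL0l : L0 ≤ lam := min_le_left _ _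
  set μ : ℝ := δ * L0 / 8 with hμ
  have hμ0 : 0 < μ := by rw [hμ]; positivity
  have hμ1 : μ ≤ 1 := by
    rw [hμ]
    have h1 : δ * L0 ≤ 1 / 100 * 1 := mul_le_mul hδ1 hL01 hL00.le (by norm_num)
    linarith
  obtain ⟨C1, hC1, hC1b⟩ := hW μ (δ * μ) hμ0 hμ1 (by positivity)
  obtain ⟨C2, hC2, hC2b⟩ := hK2 μ hμ0 hμ1
  have hK0 : 0 < K := by linarith
  refine ⟨C1 + C2 + Real.exp (1 / δ) + 10 / (δ / K) * (12 * C1), ?_, ?_⟩
  · have h1 := Real.exp_pos (1 / δ)
    have h2 : 0 ≤ 10 / (δ / K) * (12 * C1) := by positivity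
    linarith
  intro T hT
  have hexp := Real.exp_pos (1 / δ)
  have hpos : 0 ≤ 10 / (δ / K) * (12 * C1) := by positivity
  have hT1 : 1 ≤ T := by linarith
  have hT0 : 0 < T := by linarith
  have hTe : Real.exp (1 / δ) ≤ T := by linarith
  have hlog : 1 / δ ≤ Real.log (T ^ 2) := by
    rw [Real.log_pow]
    have h1 : 1 / δ ≤ Real.log T := by
      rw [Real.le_log_iff_exp_le hT0]
      exact hTe
    have h2 : 0 < 1 / δ := by positivity
    push_cast
    linarith
  set E : Set ℝ := {t : ℝ | T ^ 2 ≤ t ∧ t ≤ 4 * T ^ 2 ∧ Bad μ (δ * μ) T t} with hE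
  have hvE : volume E ≤ ENNReal.ofReal (12 * T * (C1 * T ^ r1)) :=
    hV T (Bad μ (δ * μ) T) (C1 * T ^ r1) hT1 (hC1b T (by linarith))
  have hA := hM E {x : ℝ | 4 / 3 * T ^ 2 ≤ x ∧ x ≤ 2 * T ^ 2 ∧ Exc lam ε x} (δ / K) (2 * T ^ 2)
    (by positivity) ?_
  · refine hA.trans ?_
    calc ENNReal.ofReal (10 / (δ / K)) * volume E
        ≤ ENNReal.ofReal (10 / (δ / K)) * ENNReal.ofReal (12 * T * (C1 * T ^ r1)) := by gcongr
      _ = ENNReal.ofReal (10 / (δ / K) * (12 * T * (C1 * T ^ r1))) :=
          (ENNReal.ofReal_mul (by positivity)).symm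
      _ ≤ _ := by
          apply ENNReal.ofReal_le_ofReal
          have e : T ^ (1 + r1) = T * T ^ r1 := by
            rw [Real.rpow_add hT0, Real.rpow_one]
          rw [e]
          have h1 : 0 ≤ T * T ^ r1 := by positivity
          have h2 : 10 / (δ / K) * (12 * T * (C1 * T ^ r1)) =
              10 / (δ / K) * (12 * C1) * (T * T ^ r1) := by ring
          rw [h2]
          apply mul_le_mul_of_nonneg_right _ h1
          linarith
  · rintro x ⟨hx1, hx2, y, hy1, hy2, hy3⟩
    have hx0 : 0 < x := lt_of_lt_of_le (by positivity) hx1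
    have hy0 : 0 < y := lt_of_lt_of_le (mul_pos hlam (Real.sqrt_pos.2 hx0)) hy1
    refine ⟨y, hy0, hy2.trans hx2, ?_⟩
    by_contra hcon
    rw [not_le] at hcon
    have hlx : 0 < Real.log x := by
      have h1 : Real.log (T ^ 2) ≤ Real.log x := Real.log_le_log (by positivity) (by nlinarith)
      have h2 : 0 < 1 / δ := by positivity
      linarith
    have h := point hL hK hδ0 hδ1 hL00 hL01 hL0l hμ hT1 hlog hx1 hx2 hy1 hy2
      (fun t ht1 ht2 => hC2b T t (by linarith) ht1 ht2)
      (toMeasurable volume (E ∩ Icc (x - y) (x + y))) (measurableSet_toMeasurable _ _) ?_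
      (by rw [measure_toMeasurable]; exact hcon.le)
    · have h1 : 5 * δ * (y / Real.log x) ≤ ε * (y / Real.log x) :=
        mul_le_mul_of_nonneg_right hδε (by positivity)
      linarith
    · intro t ht1 ht2 ht3 ht4 htG
      have h1 : t ∉ E := fun h => htG (subset_toMeasurable _ _ ⟨h, ht3, ht4⟩)
      by_contra h2
      rw [not_le] at h2
      exact h1 ⟨ht1, ht2, h2⟩

end Pool.Agent.Work.MP_9ecf5f_nt.AE
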