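import Pool.Agent.Work.MP_9ecf5f_nt.AE.Stmts

/-!
MP_9ecf5f_nt, block AE, item V: packing number and measure.
-/

set_option autoImplicit false

open MeasureTheory Set

noncomputable section

namespace Pool.Agent.Work.MP_9ecf5f_nt.AE

open Pool.Agent.Work.MP_a8fbd7_nt.OX (PackLe LSep r1)

namespace XV

theorem exp_diff {u : ℝ} (h0 : 0 < u) (h1 : u ≤ 1) : Real.exp u - Real.exp (-u) ≤ 3 * u := by
  have h2 : |Real.exp u - 1 - u| ≤ u ^ 2 :=
    Real.abs_exp_sub_one_sub_id_le (by rw [abs_of_pos h0]; exact h1)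
  have h3 := (abs_le.1 h2).2
  have h4 := Real.add_one_le_exp (-u)
  nlinarith

/-- a separated subset of maximal cardinality -/
theorem exists_max (T : ℝ) (P : ℝ → Prop) (B : ℝ) (h : PackLe T P B) :
    ∃ S : Finset ℝ, (LSep S T ∧ ∀ x ∈ S, T ^ 2 ≤ x ∧ x ≤ 4 * T ^ 2 ∧ P x) ∧
      ∀ S' : Finset ℝ, LSep S' T → (∀ x ∈ S', T ^ 2 ≤ x ∧ x ≤ 4 * T ^ 2 ∧ P x) →
        S'.card ≤ S.card := by
  let A : Set ℕ := {n | ∃ S : Finset ℝ, S.card = n ∧ LSep S T ∧
    ∀ x ∈ S, T ^ 2 ≤ x ∧ x ≤ 4 * T ^ 2 ∧ P x}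
  have hne : A.Nonempty := by
    refine ⟨0, ∅, rfl, ⟨?_, ?_⟩, ?_⟩
    · intro x hx
      exact absurd hx (Finset.notMem_empty x)
    · intro x hx
      exact absurd hx (Finset.notMem_empty x)
    · intro x hx
      exact absurd hx (Finset.notMem_empty x)
  have hbdd : BddAbove A := by
    refine ⟨⌊B⌋₊, ?_⟩
    rintro n ⟨S, rfl, hS, hP⟩
    exact Nat.le_floor (h S hS hP)
  obtain ⟨S, hc, hS, hP⟩ := Nat.sSup_mem hne hbdd
  refine ⟨S, ⟨hS, hP⟩, fun S' hS' hP' => ?_⟩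
  rw [hc]
  exact le_csSup hbdd ⟨S', rfl, hS', hP'⟩

/-- every point is close to the maximal set -/
theorem close (T : ℝ) (hT : 1 ≤ T) (P : ℝ → Prop) (S : Finset ℝ) (hS : LSep S T)
    (hP : ∀ x ∈ S, T ^ 2 ≤ x ∧ x ≤ 4 * T ^ 2 ∧ P x)
    (hmax : ∀ S' : Finset ℝ, LSep S' T → (∀ x ∈ S', T ^ 2 ≤ x ∧ x ≤ 4 * T ^ 2 ∧ P x) →
      S'.card ≤ S.card) (t : ℝ) (ht : T ^ 2 ≤ t ∧ t ≤ 4 * T ^ 2 ∧ P t) :
    ∃ s ∈ S, T * |Real.log t - Real.log s| < 1 := by
  classical
  by_contra hcon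
  push Not at hcon
  have ht0 : 0 < t := lt_of_lt_of_le (by positivity) ht.1
  have htS : t ∉ S := by
    intro h
    have h1 := hcon t h
    rw [sub_self, abs_zero, mul_zero] at h1
    linarith
  have h2 : LSep (insert t S) T := by
    refine ⟨?_, ?_⟩
    · intro x hx
      rcases Finset.mem_insert.1 hx with rfl | hx
      · exact ht0
      · exact hS.1 x hx
    · intro x hx y hy hxy
      rcases Finset.mem_insert.1 hx with hx1 | hx
      · rcases Finset.mem_insert.1 hy with hy1 | hy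
        · exact absurd (hx1.trans hy1.symm) hxy
        · rw [hx1]
          exact hcon y hy
      · rcases Finset.mem_insert.1 hy with hy1 | hy
        · rw [hy1, abs_sub_comm]
          exact hcon x hx
        · exact hS.2 x hx y hy hxy
  have h3 := hmax (insert t S) h2 (by
    intro x hx
    rcases Finset.mem_insert.1 hx with hx1 | hx
    · rw [hx1]
      exact ht
    · exact hP x hx)
  rw [Finset.card_insert_of_notMem htS] at h3
  omega

end XV

open XV in
theorem prf_V : StV := by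
  intro T P B hT hB
  have hT0 : 0 < T := by linarith
  obtain ⟨S, ⟨hS, hP⟩, hmax⟩ := exists_max T P B hB
  have hcov : {t : ℝ | T ^ 2 ≤ t ∧ t ≤ 4 * T ^ 2 ∧ P t} ⊆
      ⋃ s ∈ S, Ioo (s * Real.exp (-(1 / T))) (s * Real.exp (1 / T)) := by
    intro t ht
    obtain ⟨s, hs, hst⟩ := close T hT P S hS hP hmax t ht
    have ht0 : 0 < t := lt_of_lt_of_le (by positivity) ht.1
    have hs0 : 0 < s := hS.1 s hs
    have h1 : |Real.log t - Real.log s| < 1 / T := by
      rw [lt_div_iff₀ hT0, mul_comm]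
      exact hst
    obtain ⟨h2, h3⟩ := abs_lt.1 h1
    refine Set.mem_iUnion₂.2 ⟨s, hs, ?_, ?_⟩
    · have h4 : Real.log s + -(1 / T) < Real.log t := by linarith
      have h5 := Real.exp_lt_exp.2 h4
      rwa [Real.exp_add, Real.exp_log hs0, Real.exp_log ht0] at h5
    · have h4 : Real.log t < Real.log s + 1 / T := by linarith
      have h5 := Real.exp_lt_exp.2 h4
      rwa [Real.exp_add, Real.exp_log hs0, Real.exp_log ht0] at h5
  have hlen : ∀ s ∈ S, volume (Ioo (s * Real.exp (-(1 / T))) (s * Real.exp (1 / T))) ≤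
      ENNReal.ofReal (12 * T) := by
    intro s hs
    rw [Real.volume_Ioo]
    refine ENNReal.ofReal_le_ofReal ?_
    have hs0 : 0 < s := hS.1 s hs
    have hs4 : s ≤ 4 * T ^ 2 := (hP s hs).2.1
    have h1 := exp_diff (u := 1 / T) (by positivity) (by rw [div_le_one hT0]; exact hT)
    have h2 : (0 : ℝ) ≤ 3 * (1 / T) := by positivity
    calc s * Real.exp (1 / T) - s * Real.exp (-(1 / T))
        = s * (Real.exp (1 / T) - Real.exp (-(1 / T))) := by ring
      _ ≤ s * (3 * (1 / T)) := mul_le_mul_of_nonneg_left h1 hs0.le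
      _ ≤ 4 * T ^ 2 * (3 * (1 / T)) := mul_le_mul_of_nonneg_right hs4 h2
      _ = 12 * T := by
        field_simp
        ring
  calc volume {t : ℝ | T ^ 2 ≤ t ∧ t ≤ 4 * T ^ 2 ∧ P t}
      ≤ volume (⋃ s ∈ S, Ioo (s * Real.exp (-(1 / T))) (s * Real.exp (1 / T))) :=
        measure_mono hcov
    _ ≤ ∑ s ∈ S, volume (Ioo (s * Real.exp (-(1 / T))) (s * Real.exp (1 / T))) :=
        measure_biUnion_finset_le _ _
    _ ≤ ∑ _s ∈ S, ENNReal.ofReal (12 * T) := Finset.sum_le_sum hlen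
    _ = ENNReal.ofReal ((S.card : ℝ) * (12 * T)) := by
        rw [Finset.sum_const, nsmul_eq_mul, ENNReal.ofReal_mul (Nat.cast_nonneg _),
          ENNReal.ofReal_natCast]
    _ ≤ ENNReal.ofReal (12 * T * B) := by
        refine ENNReal.ofReal_le_ofReal ?_
        have h1 := hB S hS hP
        nlinarith

end Pool.Agent.Work.MP_9ecf5f_nt.AE
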