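import Pool.Agent.Work.MP_9ecf5f_nt.AE.I_W
import Pool.Agent.Work.MP_9ecf5f_nt.AE.I_V
import Pool.Agent.Work.MP_9ecf5f_nt.AE.I_L
import Pool.Agent.Work.MP_9ecf5f_nt.AE.I_B
import Pool.Agent.Work.MP_9ecf5f_nt.AE.I_M
import Pool.Agent.Work.MP_9ecf5f_nt.AE.I_S
import Pool.Agent.Work.MP_9ecf5f_nt.AE.I_F
import Pool.Agent.Work.MP_a8fbd7_nt.OX.ASM.All
import Pool.Agent.Work.MP_a8fbd7_nt.OX.CELL.All
import Pool.Agent.Work.MP_a8fbd7_nt.OX.LV.All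
import Pool.Agent.Work.MP_a8fbd7_nt.ZF.All

/-!
MP_9ecf5f_nt, block AE: assembly. Author: helper76.
-/

set_option autoImplicit false

namespace Pool.Agent.Work.MP_9ecf5f_nt.AE

open Pool.Agent.Work.MP_a8fbd7_nt
open Pool.Agent.Work.MP_a8fbd7_nt.OX

theorem all_Mn : OX.ASM.StMn :=
  OX.ASM.all_Mn (OX.CELL.cellA lv_Pf lv_Mv lv_Hx lv_G lv_J)
    (OX.CELL.cellB lv_Pf lv_Mv lv_Hx lv_G lv_J ZF.all_HM)

theorem all_F : StF := prf_F (prf_S (prf_W all_Mn OX.ASM.iWt) prf_V prf_L prf_B prf_M)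

end Pool.Agent.Work.MP_9ecf5f_nt.AE
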