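import Pool.Agent.Work.MP_9ecf5f_nt.AE.All

/-!
MP_9ecf5f_nt (a prime in every interval [x, x + sqrt x]): the prime number theorem in all but few of the intervals of this length and
longer.  For all positive `lam`, `ε` there is `C` such that for all real `X ≥ 1` the set of the `x ∈ [1, X]` for which some real
`y ∈ [lam sqrt x, x]` has `|π(x + y) - π(x) - y / log x| > ε y / log x` has outer Lebesgue measure at most `C X^(239/400)`.
-/

set_option autoImplicit false

open MeasureTheory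

namespace Pool.Agent.Work.MP_9ecf5f_nt.AE.Draft

theorem result : ∀ lam ε : ℝ, 0 < lam → 0 < ε → ∃ C : ℝ, ∀ X : ℝ, 1 ≤ X →
    volume {x : ℝ | 1 ≤ x ∧ x ≤ X ∧ ∃ y : ℝ, lam * Real.sqrt x ≤ y ∧ y ≤ x ∧
      ε * (y / Real.log x) <
        |((Nat.primeCounting ⌊x + y⌋₊ : ℝ) - (Nat.primeCounting ⌊x⌋₊ : ℝ)) - y / Real.log x|} ≤
      ENNReal.ofReal (C * X ^ (239 / 400 : ℝ)) :=
  Pool.Agent.Work.MP_9ecf5f_nt.AE.all_F

end Pool.Agent.Work.MP_9ecf5f_nt.AE.Draft
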