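import Mathlib
import Pool.Agent.Work.MP_a8fbd7_nt.OX.ASM.Stmts

/-!
MP_9ecf5f_nt, block AE: the prime number theorem in all intervals of length at least `lam √x`, outside a set of `x` of measure
`O(X^(239/400))`. Definitions and statements of the items. Author: helper76.
-/

set_option autoImplicit false

open MeasureTheory Set

noncomputable section

namespace Pool.Agent.Work.MP_9ecf5f_nt.AE

open Pool.Agent.Work.MP_a8fbd7_nt.OX (PackLe LSep r1)

/-- number of primes in `(a, b]` -/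
def pc (a b : ℝ) : ℝ := (((Finset.Ioc ⌊a⌋₊ ⌊b⌋₊).filter Nat.Prime).card : ℝ)

/-- number of primes in the window `(t, t e^(μ/T)]` -/
def cnt (μ T t : ℝ) : ℝ := pc t (t * Real.exp (μ / T))

/-- the window at `t` has a wrong number of primes -/
def Bad (μ δ T t : ℝ) : Prop := δ < |Real.log t * (T / t * cnt μ T t) - μ|

/-- some interval `(x, x+y]`, `lam √x ≤ y ≤ x`, has a wrong number of primes -/
def Exc (lam ε x : ℝ) : Prop := ∃ y : ℝ, lam * Real.sqrt x ≤ y ∧ y ≤ x ∧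
  ε * (y / Real.log x) < |pc x (x + y) - y / Real.log x|

/-- ITEM W (windows; from `OX.ASM.StMn`, `OX.ASM.StWt`; model `OX/ASM/I_Co.lean`). -/
def StW : Prop := ∀ μ δ : ℝ, 0 < μ → μ ≤ 1 → 0 < δ → ∃ C : ℝ, 1 ≤ C ∧ ∀ T : ℝ, C ≤ T →
  PackLe T (Bad μ δ T) (C * T ^ r1)

/-- ITEM V (packing number and measure).  `0 ≤ B` (take `S = ∅`).  Let `E` be the set.  The cardinalities of the finite `LSep` sets
`S ⊆ E` (with parameter `T`) are at most `B`, so there is one of maximal cardinality; every `t ∈ E` has then a point `s ∈ S` with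
`T |log t - log s| < 1`, that is `s e^(-1/T) < t < s e^(1/T)`.  The interval has length `s (e^(1/T) - e^(-1/T)) ≤ 4 T^2 (3/T) = 12 T`
(for `0 < u ≤ 1`: `e^u - e^(-u) ≤ 3 u`).  Union over the at most `B` points of `S`. -/
def StV : Prop := ∀ (T : ℝ) (P : ℝ → Prop) (B : ℝ), 1 ≤ T → PackLe T P B →
  volume {t : ℝ | T ^ 2 ≤ t ∧ t ≤ 4 * T ^ 2 ∧ P t} ≤ ENNReal.ofReal (12 * T * B)

/-- ITEM L (averages over windows).  For `t > 0`: `cnt μ T t = ∑_p [p e^(-μ/T) ≤ t < p]` (a prime `p` is counted iff `t < p` and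
`p ≤ t e^(μ/T)`), for `t ≤ b` a sum over the primes `p ≤ b e^(μ/T)` (finite), so `cnt μ T t / t` is on `(0, b]` a finite sum of
functions `(1/t) 1_[p e^(-μ/T), p)(t)`, integrable on `[a, b]`, and `∫ dt/t` over `[p e^(-μ/T), p)` is `μ/T`.  First inequality: for
`t ∈ [a,b]` only primes `p ∈ (a, b e^(μ/T)]` occur, each contributes at most `μ/T`.  Second inequality: for `p ∈ (a, b]` the interval
`[p e^(-μ/T), p)` is contained in `[a e^(-μ/T), b]`, it contributes exactly `μ/T`, the other primes contribute `≥ 0`. -/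
def StL : Prop := ∀ μ T a b : ℝ, 0 < μ → 0 < T → 0 < a → a ≤ b →
  IntegrableOn (fun t => cnt μ T t / t) (Icc a b) ∧
  ∫ t in Icc a b, cnt μ T t / t ≤ μ / T * pc a (b * Real.exp (μ / T)) ∧
  μ / T * pc a b ≤ ∫ t in Icc (a * Real.exp (-(μ / T))) b, cnt μ T t / t

/-- ITEM B (Brun-Titchmarsh; use `Pool.Agent.Work.MP_a8fbd7_nt.OX.CW.BTaux.core` of `OX/CW/BTcore.lean`).  The window is contained in
`(t, t + n]` with `n = ⌈2 μ t / T⌉` (`e^u - 1 ≤ 2u` for `0 ≤ u ≤ 1`), `μ T ≤ 2 μ t / T ≤ n ≤ 4 μ t / T` and `n ≤ t < p` for large `T`,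
so the number of primes is at most `24 n / log n`, `log n ≥ log (μ T) ≥ (log T)/2 ≥ (log t)/8`.  `K = 800`. -/
def StB : Prop := ∃ K : ℝ, 1 ≤ K ∧ ∀ μ : ℝ, 0 < μ → μ ≤ 1 → ∃ C : ℝ, 1 ≤ C ∧ ∀ T t : ℝ, C ≤ T → T ^ 2 / 2 ≤ t → t ≤ 4 * T ^ 2 →
  cnt μ T t ≤ K * (μ * t / (T * Real.log t))

/-- ITEM M (maximal function).  Vitali covering lemma `Vitali.exists_disjoint_subfamily_covering_enlargement_closedBall` for the balls
`closedBall x (r x) = Icc (x - r) (x + r)`, `x ∈ A`: a disjoint subfamily `u ⊆ A` such that the balls with five times the radius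
cover `A`.  `u` is countable (disjoint sets with nonempty interior: `Set.PairwiseDisjoint.countable_of_nonempty_interior`).
`volume A ≤ ∑ 10 r ≤ ∑ (10/δ) volume (B ∩ ball) ≤ (10/δ) volume B` (`measure_iUnion` for `volume.restrict B`, the balls are
measurable; `B` need not be measurable). -/
def StM : Prop := ∀ (B A : Set ℝ) (δ R : ℝ), 0 < δ →
  (∀ x ∈ A, ∃ r : ℝ, 0 < r ∧ r ≤ R ∧ ENNReal.ofReal (δ * r) ≤ volume (B ∩ Icc (x - r) (x + r))) →
  volume A ≤ ENNReal.ofReal (10 / δ) * volume B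

/-- ITEM S (one scale; from StW, StV, StL, StB, StM). -/
def StS : Prop := ∀ lam ε : ℝ, 0 < lam → 0 < ε → ∃ C : ℝ, 1 ≤ C ∧ ∀ T : ℝ, C ≤ T →
  volume {x : ℝ | 4 / 3 * T ^ 2 ≤ x ∧ x ≤ 2 * T ^ 2 ∧ Exc lam ε x} ≤ ENNReal.ofReal (C * T ^ (1 + r1))

/-- the result -/
def StF : Prop := ∀ lam ε : ℝ, 0 < lam → 0 < ε → ∃ C : ℝ, ∀ X : ℝ, 1 ≤ X →
  volume {x : ℝ | 1 ≤ x ∧ x ≤ X ∧ ∃ y : ℝ, lam * Real.sqrt x ≤ y ∧ y ≤ x ∧
    ε * (y / Real.log x) < |((Nat.primeCounting ⌊x + y⌋₊ : ℝ) - Nat.primeCounting ⌊x⌋₊) - y / Real.log x|} ≤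
    ENNReal.ofReal (C * X ^ (239 / 400 : ℝ))

/-- ITEM F (all scales).  `pc x (x + y) = π(x + y) - π(x)` for `0 ≤ y` (`Nat.primeCounting`, count of the primes in `(⌊x⌋, ⌊x+y⌋]`).
Let `C0` be the constant of StS and `T_j = C0 (3/2)^(j/2)`: the intervals `[4/3 T_j^2, 2 T_j^2]` cover `[4/3 C0^2, ∞)`.  The part
`x < 4/3 C0^2` has measure at most `4/3 C0^2`; for the rest sum `C0 T_j^(1 + r1)` over the `j` with `4/3 T_j^2 ≤ X` (geometric
series, ratio `(3/2)^((1+r1)/2) > 1`): at most `C' X^((1+r1)/2)`, `(1 + r1)/2 = .59725 ≤ 239/400`. -/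
def StFS : Prop := StS → StF

end Pool.Agent.Work.MP_9ecf5f_nt.AE
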