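import Mathlib
import Pool.Agent.Work.MP_9ecf5f_nt.AE.Stmts

/-!
MP_9ecf5f_nt, block AE, item W: the prime number theorem in the windows `(t, t e^(μ/T)]` outside a small set.
-/

set_option autoImplicit false

open MeasureTheory Set

noncomputable section

namespace Pool.Agent.Work.MP_9ecf5f_nt.AE

open Pool.Agent.Work.MP_a8fbd7_nt.OX (PackLe LSep r1)
open Pool.Agent.Work.MP_a8fbd7_nt.OX.ASM (SW pr Iw StMn StWt)

namespace XW

lemma pr_nonneg (n : ℕ) : 0 ≤ pr n := by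
  unfold pr; split_ifs <;> norm_num

/-- the sum over a window is finite -/
lemma summ (w : ℝ → ℝ) (U x T : ℝ) (hU : ∀ u, w u ≠ 0 → u ≤ U) (hx : 0 < x) (hT : 0 < T) :
    Summable fun n : ℕ => pr n * w (((n : ℝ) / x) ^ T) := by
  apply summable_of_ne_finset_zero (s := Finset.range (⌊(|U| + 1) ^ (1 / T) * x⌋₊ + 1))
  intro n hn
  by_contra h
  apply hn
  rw [Finset.mem_range, Nat.lt_add_one_iff]
  apply Nat.le_floor
  have h1 : w (((n : ℝ) / x) ^ T) ≠ 0 := by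
    intro h2; rw [h2, mul_zero] at h; exact h rfl
  have h2 : ((n : ℝ) / x) ^ T ≤ |U| + 1 := (hU _ h1).trans ((le_abs_self U).trans (by linarith))
  have h0 : (0 : ℝ) ≤ (n : ℝ) / x := by positivity
  have h3 : (n : ℝ) / x ≤ (|U| + 1) ^ (1 / T) := by
    have h4 : (((n : ℝ) / x) ^ T) ^ (1 / T) ≤ (|U| + 1) ^ (1 / T) :=
      Real.rpow_le_rpow (by positivity) h2 (by positivity)
    rwa [← Real.rpow_mul h0, mul_one_div_cancel hT.ne', Real.rpow_one] at h4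
  rwa [div_le_iff₀ hx] at h3

lemma up (w : ℝ → ℝ) (U x T : ℝ) (hU : ∀ u, w u ≠ 0 → u ≤ U) (hx : 0 < x) (hT : 0 < T)
    (h0 : ∀ u, 0 ≤ w u) (s : Finset ℕ) (hs : ∀ p ∈ s, p.Prime ∧ w (((p : ℝ) / x) ^ T) = 1) :
    (s.card : ℝ) ≤ SW w pr x T := by
  unfold SW
  have h1 := (summ w U x T hU hx hT).sum_le_tsum s (fun n _ => mul_nonneg (pr_nonneg n) (h0 _))
  refine le_trans (le_of_eq ?_) h1
  rw [Finset.card_eq_sum_ones, Nat.cast_sum]
  apply Finset.sum_congr rfl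
  intro p hp
  obtain ⟨h2, h3⟩ := hs p hp
  rw [h3, pr, if_pos h2]
  norm_num

lemma lo (w : ℝ → ℝ) (x T : ℝ) (h1 : ∀ u, w u ≤ 1) (s : Finset ℕ)
    (hs : ∀ p : ℕ, p.Prime → w (((p : ℝ) / x) ^ T) ≠ 0 → p ∈ s) :
    SW w pr x T ≤ (s.card : ℝ) := by
  unfold SW
  rw [tsum_eq_sum (s := s)]
  · rw [Finset.card_eq_sum_ones, Nat.cast_sum]
    apply Finset.sum_le_sum
    intro p _
    unfold pr
    split_ifs
    · rw [one_mul]; exact_mod_cast h1 _
    · norm_num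
  · intro p hp
    unfold pr
    split_ifs with h2
    · by_contra h3
      rw [one_mul] at h3
      exact hp (hs p h2 h3)
    · simp

/-- `y^T = exp (T log y)` -/
lemma rp (y T : ℝ) (hy : 0 < y) : y ^ T = Real.exp (T * Real.log y) := by
  rw [Real.rpow_def_of_pos hy, mul_comm]

/-- the upper bound for the number of primes in a window -/
lemma cnt_up (w : ℝ → ℝ) (U μ T t : ℝ) (hU : ∀ u, w u ≠ 0 → u ≤ U) (hT : 0 < T) (ht : 0 < t)
    (h0 : ∀ u, 0 ≤ w u) (hw : ∀ u, Real.exp 0 ≤ u → u ≤ Real.exp μ → w u = 1) :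
    cnt μ T t ≤ SW w pr t T := by
  unfold cnt pc
  apply up w U _ T hU ht hT h0
  intro p hp
  rw [Finset.mem_filter, Finset.mem_Ioc] at hp
  obtain ⟨⟨h1, h2⟩, h3⟩ := hp
  refine ⟨h3, ?_⟩
  have hp1 : t < p := Nat.lt_of_floor_lt h1
  have hp0 : (0 : ℝ) < p := ht.trans hp1
  have hp2 : (p : ℝ) ≤ t * Real.exp (μ / T) := by
    have : (0 : ℝ) ≤ t * Real.exp (μ / T) := by positivity
    exact (Nat.le_floor_iff this).1 h2
  have hq : (0 : ℝ) < (p : ℝ) / t := by positivity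
  rw [rp _ _ hq]
  apply hw
  · rw [Real.exp_le_exp]
    refine mul_nonneg hT.le (Real.log_nonneg ?_)
    rw [le_div_iff₀ ht]; linarith
  · rw [Real.exp_le_exp]
    have h4 : Real.log ((p : ℝ) / t) ≤ μ / T := by
      rw [Real.log_le_iff_le_exp hq, div_le_iff₀ ht]
      linarith
    calc T * Real.log ((p : ℝ) / t) ≤ T * (μ / T) := mul_le_mul_of_nonneg_left h4 hT.le
      _ = μ := by field_simp

/-- the lower bound for the number of primes in a window -/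
lemma cnt_lo (w : ℝ → ℝ) (μ τ T t : ℝ) (hT : 0 < T) (ht : 0 < t) (hτ : 0 < τ)
    (h1 : ∀ u, w u ≤ 1) (hw : ∀ u, w u ≠ 0 → Real.exp τ ≤ u ∧ u ≤ Real.exp μ) :
    SW w pr t T ≤ cnt μ T t := by
  unfold cnt pc
  apply lo w _ T h1
  intro p hp hne
  have hp0 : (0 : ℝ) < p := by exact_mod_cast hp.pos
  obtain ⟨h2, h3⟩ := hw _ hne
  have hq : (0 : ℝ) < (p : ℝ) / t := by positivity
  rw [rp _ _ hq, Real.exp_le_exp] at h2 h3
  rw [Finset.mem_filter, Finset.mem_Ioc]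
  refine ⟨⟨?_, ?_⟩, hp⟩
  · have h4 : 0 < Real.log ((p : ℝ) / t) := by
      by_contra h
      push Not at h
      nlinarith
    have h5 : t < p := by
      have h6 : 1 < (p : ℝ) / t := (Real.log_pos_iff hq.le).1 h4
      rwa [lt_div_iff₀ ht, one_mul] at h6
    rw [Nat.floor_lt ht.le]
    exact h5
  · apply Nat.le_floor
    have h4 : Real.log ((p : ℝ) / t) ≤ μ / T := by
      rw [le_div_iff₀ hT]; linarith
    rw [Real.log_le_iff_le_exp hq, div_le_iff₀ ht] at h4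
    linarith

/-- one window -/
lemma one (μ τ δ q I1 I2 S1 S2 c : ℝ) (hδ : 4 * τ ≤ δ) (hτ : 0 < τ) (hq : 0 ≤ q)
    (hI1 : I1 ≤ μ + 2 * τ) (hI2 : μ - 3 * τ ≤ I2) (h1 : c ≤ S1) (h2 : S2 ≤ c)
    (hS1 : |q * S1 - I1| ≤ τ) (hS2 : |q * S2 - I2| ≤ τ) : |q * c - μ| ≤ δ := by
  have a1 := (abs_le.1 hS1).2
  have a2 := (abs_le.1 hS2).1
  have b1 : q * c ≤ q * S1 := mul_le_mul_of_nonneg_left h1 hq
  have b2 : q * S2 ≤ q * c := mul_le_mul_of_nonneg_left h2 hq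
  rw [abs_le]
  constructor <;> linarith

/-- packing numbers of unions -/
lemma packUnion (T : ℝ) (P P1 P2 : ℝ → Prop) (B1 B2 : ℝ) (h1 : PackLe T P1 B1) (h2 : PackLe T P2 B2)
    (h : ∀ t, T ^ 2 ≤ t → t ≤ 4 * T ^ 2 → P t → P1 t ∨ P2 t) : PackLe T P (B1 + B2) := by
  classical
  intro S hS hP
  have hsub : ∀ (Q : ℝ → Prop), LSep (S.filter Q) T := by
    intro Q
    refine ⟨fun x hx => hS.1 x (Finset.mem_filter.1 hx).1, fun x hx y hy hxy => ?_⟩
    exact hS.2 x (Finset.mem_filter.1 hx).1 y (Finset.mem_filter.1 hy).1 hxy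
  have k1 := h1 (S.filter P1) (hsub P1) (fun x hx => by
    rw [Finset.mem_filter] at hx
    exact ⟨(hP x hx.1).1, (hP x hx.1).2.1, hx.2⟩)
  have k2 := h2 (S.filter P2) (hsub P2) (fun x hx => by
    rw [Finset.mem_filter] at hx
    exact ⟨(hP x hx.1).1, (hP x hx.1).2.1, hx.2⟩)
  have hcov : S ⊆ S.filter P1 ∪ S.filter P2 := by
    intro x hx
    rw [Finset.mem_union, Finset.mem_filter, Finset.mem_filter]
    obtain ⟨g1, g2, g3⟩ := hP x hx
    rcases h x g1 g2 g3 with g | g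
    · exact Or.inl ⟨hx, g⟩
    · exact Or.inr ⟨hx, g⟩
  have hc : (S.card : ℝ) ≤ ((S.filter P1).card : ℝ) + ((S.filter P2).card : ℝ) := by
    exact_mod_cast (Finset.card_le_card hcov).trans (Finset.card_union_le _ _)
  linarith

end XW

open XW in
theorem prf_W (h1 : Pool.Agent.Work.MP_a8fbd7_nt.OX.ASM.StMn) (h2 : Pool.Agent.Work.MP_a8fbd7_nt.OX.ASM.StWt) :
    StW := by
  intro μ δ hμ _ hδ
  set τ : ℝ := min (μ / 4) (δ / 8) with hτdef
  have hτ : 0 < τ := by rw [hτdef]; positivity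
  have hτ1 : τ ≤ μ / 4 := min_le_left _ _
  have hτ2 : 4 * τ ≤ δ := by
    have : τ ≤ δ / 8 := min_le_right _ _
    linarith
  obtain ⟨w1, w1a, w1b, w1c, w1d, w1e, w1f⟩ := h2 0 μ τ hμ hτ
  obtain ⟨w2, w2a, w2b, w2c, w2d, w2e, w2f⟩ := h2 (2 * τ) (μ - τ) τ (by linarith) hτ
  obtain ⟨C1, C1a, C1b⟩ := h1 w1 w1a (fun u => (w1b u).1) τ hτ
  obtain ⟨C2, C2a, C2b⟩ := h1 w2 w2a (fun u => (w2b u).1) τ hτ
  refine ⟨C1 + C2, by linarith, fun T hT => ?_⟩
  have hT1 : 1 ≤ T := by linarith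
  have hT0 : 0 < T := by linarith
  have hb1 := C1b T (by linarith)
  have hb2 := C2b T (by linarith)
  rw [add_mul]
  refine packUnion T _ _ _ _ _ hb1 hb2 ?_
  intro t ht _ hbad
  have hT2 : 1 ≤ T ^ 2 := one_le_pow₀ hT1
  have ht1 : 1 ≤ t := hT2.trans ht
  have ht0 : 0 < t := by linarith
  by_contra hcon
  rw [not_or, not_lt, not_lt] at hcon
  obtain ⟨g1, g2⟩ := hcon
  refine absurd hbad (not_lt.2 ?_)
  have hq : 0 ≤ Real.log t * (T / t) := mul_nonneg (Real.log_nonneg ht1) (by positivity)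
  have e : ∀ S : ℝ, Real.log t * (T / t * S) = Real.log t * (T / t) * S := fun S => by ring
  rw [e] at g1 g2 ⊢
  refine one μ τ δ _ (Iw w1) (Iw w2) (SW w1 pr t T) (SW w2 pr t T) (cnt μ T t) hτ2 hτ hq (by linarith)
    (by linarith) ?_ ?_ g1 g2
  · exact cnt_up w1 (Real.exp (μ + τ)) μ T t (fun u hu => (w1d u hu).2) hT0 ht0 (fun u => (w1b u).1) w1c
  · refine cnt_lo w2 μ τ T t hT0 ht0 hτ (fun u => (w2b u).2) (fun u hu => ?_)
    have := w2d u hu
    rw [show 2 * τ - τ = τ by ring, show μ - τ + τ = μ by ring] at this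
    exact this

end Pool.Agent.Work.MP_9ecf5f_nt.AE
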